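import Pool.Agent.Helper912.LogDefs

set_option autoImplicit false

open MeasureTheory

namespace Pool.Agent.Helper519.LG

open Helper912.LG

noncomputable section

/-- slices of functions of three variables -/
def sg (g : ℝ × ℝ × ℝ → ℝ) (y : ℝ) (q : ℝ × ℝ) : ℝ := g (q.1, q.2, y)
def sh (h : ℝ × ℝ × ℝ → ℝ) (y : ℝ) (q : ℝ × ℝ) : ℝ := h (q.1, y, q.2)
def sk (k : ℝ × ℝ × ℝ → ℝ) (y : ℝ) (q : ℝ × ℝ) : ℝ := k (y, q.1, q.2)

/-- the function which is paired with `f` -/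
def U (κ : ℝ → ℝ) (g h k : ℝ × ℝ × ℝ → ℝ) (x : ℝ × ℝ × ℝ) : ℝ :=
  ∫ y : ℝ, g (x.2.1, x.2.2, y) * h (x.2.2, y, x.1) * k (y, x.1, x.2.1) *
    κ (x.1 + x.2.1 + x.2.2 + y)

end

end Pool.Agent.Helper519.LG
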