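import Pool.Agent.Helper519.P2.Defs

set_option autoImplicit false

open MeasureTheory

namespace Pool.Agent.Helper519.LG

open Helper912.LG

noncomputable section

namespace X_Ni_memLp

-- TARGET: prove this (auxiliary lemmas between the ASSUMED END line and the theorem)

theorem Ni_memLp {E : Type} [NormedAddCommGroup E] [MeasurableSpace E] [BorelSpace E]
    (μ : Measure E) [IsFiniteMeasureOnCompacts μ] (f : E → ℝ) (hf : Ni f) (p : ENNReal) :
    MemLp f p μ := by
  obtain ⟨M, hM⟩ := hf.bdd
  exact hf.supp.memLp_of_bound hf.meas.aestronglyMeasurable M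
    (Filter.Eventually.of_forall fun x => by rw [Real.norm_eq_abs]; exact hM x)

end X_Ni_memLp

export X_Ni_memLp (Ni_memLp)

end

end Pool.Agent.Helper519.LG
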