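import Pool.Agent.Helper519.P2.Defs

set_option autoImplicit false

open MeasureTheory

namespace Pool.Agent.Helper519.LG

open Helper912.LG

noncomputable section

namespace X_Ni_slice

-- TARGET: prove this (auxiliary lemmas between the ASSUMED END line and the theorem)

theorem Ni_comp_retract (g : ℝ × ℝ × ℝ → ℝ) (hg : Ni g) (i : ℝ × ℝ → ℝ × ℝ × ℝ)
    (p : ℝ × ℝ × ℝ → ℝ × ℝ) (hi : Continuous i) (hp : Continuous p) (hpi : ∀ x, p (i x) = x) :
    Ni (fun q => g (i q)) := by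
  refine ⟨hg.meas.comp hi.measurable, ?_, ?_⟩
  · refine HasCompactSupport.intro (hg.supp.isCompact.image hp) ?_
    intro x hx
    exact image_eq_zero_of_notMem_tsupport (fun h => hx ⟨i x, h, hpi x⟩)
  · obtain ⟨M, hM⟩ := hg.bdd
    exact ⟨M, fun q => hM _⟩

theorem Ni_mul_slice (f1 f2 : ℝ × ℝ → ℝ) (h1 : Ni f1) (h2 : Ni f2) :
    Ni (fun q => f1 q * f2 q) := by
  refine ⟨h1.meas.mul h2.meas, h1.supp.mul_right, ?_⟩
  obtain ⟨M1, hM1⟩ := h1.bdd
  obtain ⟨M2, hM2⟩ := h2.bdd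
  refine ⟨M1 * M2, fun q => ?_⟩
  rw [abs_mul]
  exact mul_le_mul (hM1 q) (hM2 q) (abs_nonneg _) ((abs_nonneg _).trans (hM1 q))

theorem Ni_slice (g : ℝ × ℝ × ℝ → ℝ) (hg : Ni g) (y y' : ℝ) :
    (Ni (sg g y) ∧ Ni (sh g y) ∧ Ni (sk g y)) ∧ Ni (fun q => sg g y q * sg g y' q) ∧
      Ni (fun q => sh g y q * sh g y' q) ∧ Ni (fun q => sk g y q * sk g y' q) := by
  have hsg : ∀ y : ℝ, Ni (sg g y) := fun y =>
    Ni_comp_retract g hg (fun q => (q.1, q.2, y)) (fun x => (x.1, x.2.1)) (by fun_prop)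
      (by fun_prop) (fun x => rfl)
  have hsh : ∀ y : ℝ, Ni (sh g y) := fun y =>
    Ni_comp_retract g hg (fun q => (q.1, y, q.2)) (fun x => (x.1, x.2.2)) (by fun_prop)
      (by fun_prop) (fun x => rfl)
  have hsk : ∀ y : ℝ, Ni (sk g y) := fun y =>
    Ni_comp_retract g hg (fun q => (y, q.1, q.2)) (fun x => (x.2.1, x.2.2)) (by fun_prop)
      (by fun_prop) (fun x => rfl)
  exact ⟨⟨hsg y, hsh y, hsk y⟩, Ni_mul_slice _ _ (hsg y) (hsg y'),
    Ni_mul_slice _ _ (hsh y) (hsh y'), Ni_mul_slice _ _ (hsk y) (hsk y')⟩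

end X_Ni_slice

export X_Ni_slice (Ni_slice)

end

end Pool.Agent.Helper519.LG
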