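import Pool.Agent.Helper519.P2.Defs
import Pool.Agent.Helper519.P2.M_Ni_memLp

set_option autoImplicit false

open MeasureTheory

namespace Pool.Agent.Helper519.LG

open Helper912.LG

noncomputable section

namespace X_T4_eq

-- TARGET: prove this (auxiliary lemmas between the ASSUMED END line and the theorem)

theorem T4_eq (κ : ℝ → ℝ) (hκ : Measurable κ) (B : ℝ) (hB : ∀ s, |κ s| ≤ B)
    (f g h k : ℝ × ℝ × ℝ → ℝ) (hf : Ni f) (hg : Ni g) (hh : Ni h) (hk : Ni k) :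
    T4 κ f g h k = ∫ x : ℝ × ℝ × ℝ, f x * U κ g h k x := by
  obtain ⟨Mg, hMg⟩ := hg.bdd
  obtain ⟨Mh, hMh⟩ := hh.bdd
  obtain ⟨Mk, hMk⟩ := hk.bdd
  have hMg0 : 0 ≤ Mg := (abs_nonneg _).trans (hMg 0)
  have hMh0 : 0 ≤ Mh := (abs_nonneg _).trans (hMh 0)
  have hMk0 : 0 ≤ Mk := (abs_nonneg _).trans (hMk 0)
  have hB0 : 0 ≤ B := (abs_nonneg _).trans (hB 0)
  let e : (ℝ × ℝ × ℝ) × ℝ ≃ᵐ ℝ × ℝ × ℝ × ℝ :=
    (MeasurableEquiv.prodAssoc (α := ℝ) (β := ℝ × ℝ) (γ := ℝ)).trans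
      (MeasurableEquiv.prodCongr (MeasurableEquiv.refl ℝ) MeasurableEquiv.prodAssoc)
  have he : MeasurePreserving e (volume : Measure ((ℝ × ℝ × ℝ) × ℝ)) (volume : Measure (ℝ × ℝ × ℝ × ℝ)) := by
    have h1 : MeasurePreserving (MeasurableEquiv.prodAssoc : (ℝ × (ℝ × ℝ)) × ℝ ≃ᵐ ℝ × (ℝ × ℝ) × ℝ)
        volume volume := volume_preserving_prodAssoc
    have ha : MeasurePreserving (MeasurableEquiv.prodAssoc : (ℝ × ℝ) × ℝ ≃ᵐ ℝ × ℝ × ℝ) volume volume :=
      volume_preserving_prodAssoc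
    have hb : MeasurePreserving (Prod.map (id : ℝ → ℝ) (MeasurableEquiv.prodAssoc : (ℝ × ℝ) × ℝ ≃ᵐ ℝ × ℝ × ℝ))
        ((volume : Measure ℝ).prod (volume : Measure ((ℝ × ℝ) × ℝ)))
        ((volume : Measure ℝ).prod (volume : Measure (ℝ × ℝ × ℝ))) :=
      (MeasurePreserving.id (volume : Measure ℝ)).prod ha
    exact hb.comp h1
  have hev : ∀ z : (ℝ × ℝ × ℝ) × ℝ, e z = (z.1.1, z.1.2.1, z.1.2.2, z.2) := fun z => rfl
  have h1 : T4 κ f g h k = ∫ z : (ℝ × ℝ × ℝ) × ℝ, f z.1 * (g (z.1.2.1, z.1.2.2, z.2) *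
      h (z.1.2.2, z.2, z.1.1) * k (z.2, z.1.1, z.1.2.1) * κ (z.1.1 + z.1.2.1 + z.1.2.2 + z.2)) := by
    unfold T4
    rw [← he.integral_comp']
    congr 1
    ext z
    rw [hev]
    simp only [Prod.mk.eta]
    ring
  rw [h1]
  have hfi : Integrable f := memLp_one_iff_integrable.1 (Ni_memLp volume f hf 1)
  obtain ⟨K, hK⟩ : ∃ K : Set ℝ, K = (fun p : ℝ × ℝ × ℝ => p.2.2) '' tsupport g := ⟨_, rfl⟩
  have hKc : IsCompact K := by rw [hK]; exact hg.supp.isCompact.image (by fun_prop)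
  have hKm : MeasurableSet K := hKc.measurableSet
  have hind : Integrable (K.indicator (fun _ : ℝ => Mg * Mh * Mk * B)) := by
    rw [integrable_indicator_iff hKm]
    exact continuousOn_const.integrableOn_compact hKc
  have hint : Integrable (fun z : (ℝ × ℝ × ℝ) × ℝ => f z.1 * (g (z.1.2.1, z.1.2.2, z.2) *
      h (z.1.2.2, z.2, z.1.1) * k (z.2, z.1.1, z.1.2.1) * κ (z.1.1 + z.1.2.1 + z.1.2.2 + z.2)))
      ((volume : Measure (ℝ × ℝ × ℝ)).prod (volume : Measure ℝ)) := by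
    refine (hfi.norm.mul_prod hind).mono' ?_ ?_
    · apply Measurable.aestronglyMeasurable
      have m1 := hf.meas
      have m2 := hg.meas
      have m3 := hh.meas
      have m4 := hk.meas
      fun_prop
    · refine Filter.Eventually.of_forall fun z => ?_
      rw [norm_mul]
      apply mul_le_mul_of_nonneg_left _ (norm_nonneg _)
      by_cases hz : z.2 ∈ K
      · rw [Set.indicator_of_mem hz, Real.norm_eq_abs, abs_mul, abs_mul, abs_mul]
        have a1 := hMg (z.1.2.1, z.1.2.2, z.2)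
        have a2 := hMh (z.1.2.2, z.2, z.1.1)
        have a3 := hMk (z.2, z.1.1, z.1.2.1)
        have a4 := hB (z.1.1 + z.1.2.1 + z.1.2.2 + z.2)
        gcongr
      · rw [Set.indicator_of_notMem hz]
        have : g (z.1.2.1, z.1.2.2, z.2) = 0 := by
          by_contra hne
          apply hz
          rw [hK]
          exact ⟨(z.1.2.1, z.1.2.2, z.2), subset_tsupport _ hne, rfl⟩
        rw [this]
        simp
  rw [Measure.volume_eq_prod (ℝ × ℝ × ℝ) ℝ, integral_prod _ hint]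
  congr 1
  ext x
  simp only
  rw [integral_const_mul]
  rfl

end X_T4_eq

export X_T4_eq (T4_eq)

end

end Pool.Agent.Helper519.LG
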