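import Pool.Agent.Helper519.P2.Defs
import Pool.Agent.Helper519.P2.M_Ni_memLp

set_option autoImplicit false

open MeasureTheory

namespace Pool.Agent.Helper519.LG

open Helper912.LG

noncomputable section

namespace X_U_Ni

-- TARGET: prove this (auxiliary lemmas between the ASSUMED END line and the theorem)

theorem auxU_supp (g : ℝ × ℝ × ℝ → ℝ) (hg : Ni g) :
    ∃ R : ℝ, 0 ≤ R ∧ ∀ a b c : ℝ, (R < |a| ∨ R < |b| ∨ R < |c|) → g (a, b, c) = 0 := by
  obtain ⟨R, hR⟩ := hg.supp.isCompact.isBounded.exists_norm_le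
  refine ⟨max R 0, le_max_right _ _, ?_⟩
  intro a b c habc
  by_contra h0
  have h1 : ((a, b, c) : ℝ × ℝ × ℝ) ∈ tsupport g := subset_tsupport g h0
  have h2 := hR _ h1
  rw [Prod.norm_def, Prod.norm_def] at h2
  simp only [Real.norm_eq_abs] at h2
  have h3 : |a| ≤ R := (le_max_left _ _).trans h2
  have h4 : |b| ≤ R := ((le_max_left _ _).trans (le_max_right _ _)).trans h2
  have h5 : |c| ≤ R := ((le_max_right _ _).trans (le_max_right _ _)).trans h2
  have h6 : R ≤ max R 0 := le_max_left _ _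
  rcases habc with h | h | h
  · linarith
  · linarith
  · linarith

theorem U_Ni (κ : ℝ → ℝ) (hκ : Measurable κ) (B : ℝ) (hB : ∀ s, |κ s| ≤ B)
    (g h k : ℝ × ℝ × ℝ → ℝ) (hg : Ni g) (hh : Ni h) (hk : Ni k) : Ni (U κ g h k) := by
  obtain ⟨Rg, hRg0, hRg⟩ := auxU_supp g hg
  obtain ⟨Rh, hRh0, hRh⟩ := auxU_supp h hh
  obtain ⟨Mg, hMg⟩ := hg.bdd
  obtain ⟨Mh, hMh⟩ := hh.bdd
  obtain ⟨Mk, hMk⟩ := hk.bdd
  have hMg0 : 0 ≤ Mg := (abs_nonneg _).trans (hMg 0)
  have hMh0 : 0 ≤ Mh := (abs_nonneg _).trans (hMh 0)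
  have hMk0 : 0 ≤ Mk := (abs_nonneg _).trans (hMk 0)
  have hB0 : 0 ≤ B := (abs_nonneg _).trans (hB 0)
  refine ⟨?_, ?_, ?_⟩
  · have hmeas : Measurable (Function.uncurry fun (x : ℝ × ℝ × ℝ) (y : ℝ) =>
        g (x.2.1, x.2.2, y) * h (x.2.2, y, x.1) * k (y, x.1, x.2.1) *
          κ (x.1 + x.2.1 + x.2.2 + y)) := by
      have m1 := hg.meas
      have m2 := hh.meas
      have m3 := hk.meas
      unfold Function.uncurry
      fun_prop
    exact (hmeas.stronglyMeasurable.integral_prod_right (ν := volume)).measurable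
  · refine HasCompactSupport.intro (isCompact_closedBall (0 : ℝ × ℝ × ℝ) (max Rg Rh)) ?_
    intro x hx
    have hx1 : max Rg Rh < ‖x‖ := by
      by_contra hcon
      exact hx (mem_closedBall_zero_iff.2 (not_lt.1 hcon))
    have hgR : Rg ≤ max Rg Rh := le_max_left _ _
    have hhR : Rh ≤ max Rg Rh := le_max_right _ _
    have hcase : max Rg Rh < |x.1| ∨ max Rg Rh < |x.2.1| ∨ max Rg Rh < |x.2.2| := by
      by_contra hcon
      push Not at hcon
      obtain ⟨c1, c2, c3⟩ := hcon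
      have : ‖x‖ ≤ max Rg Rh := by
        rw [Prod.norm_def, Prod.norm_def]
        exact max_le c1 (max_le c2 c3)
      linarith
    have hzero : ∀ y : ℝ, g (x.2.1, x.2.2, y) * h (x.2.2, y, x.1) * k (y, x.1, x.2.1) *
          κ (x.1 + x.2.1 + x.2.2 + y) = 0 := by
      intro y
      rcases hcase with c | c | c
      · rw [hRh x.2.2 y x.1 (Or.inr (Or.inr (hhR.trans_lt c)))]
        ring
      · rw [hRg x.2.1 x.2.2 y (Or.inl (hgR.trans_lt c))]
        ring
      · rw [hRg x.2.1 x.2.2 y (Or.inr (Or.inl (hgR.trans_lt c)))]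
        ring
    unfold U
    simp only [hzero, integral_zero]
  · refine ⟨∫ y : ℝ, (Set.Icc (-Rg) Rg).indicator (fun _ => Mg * Mh * Mk * B) y, ?_⟩
    intro x
    have hint : Integrable (fun y : ℝ => (Set.Icc (-Rg) Rg).indicator
        (fun _ => Mg * Mh * Mk * B) y) volume := by
      apply IntegrableOn.integrable_indicator _ measurableSet_Icc
      exact integrableOn_const (by simp)
    rw [← Real.norm_eq_abs]
    unfold U
    refine norm_integral_le_of_norm_le hint (Filter.Eventually.of_forall fun y => ?_)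
    by_cases hy : y ∈ Set.Icc (-Rg) Rg
    · rw [Set.indicator_of_mem hy, norm_mul, norm_mul, norm_mul]
      have e1 : ‖g (x.2.1, x.2.2, y)‖ ≤ Mg := hMg _
      have e2 : ‖h (x.2.2, y, x.1)‖ ≤ Mh := hMh _
      have e3 : ‖k (y, x.1, x.2.1)‖ ≤ Mk := hMk _
      have e4 : ‖κ (x.1 + x.2.1 + x.2.2 + y)‖ ≤ B := hB _
      gcongr
    · have hy2 : Rg < |y| := by
        by_contra hcon
        exact hy (abs_le.1 (not_lt.1 hcon))
      rw [Set.indicator_of_notMem hy, hRg x.2.1 x.2.2 y (Or.inr (Or.inr hy2))]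
      simp

end X_U_Ni

export X_U_Ni (U_Ni)

end

end Pool.Agent.Helper519.LG
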