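import Pool.Agent.Helper519.P2.Defs

set_option autoImplicit false

open MeasureTheory

namespace Pool.Agent.Helper519.LG

open Helper912.LG

noncomputable section

namespace X_holder3

-- TARGET: prove this (auxiliary lemmas between the ASSUMED END line and the theorem)

theorem holder3_pow (x : ENNReal) : (x ^ 6) ^ ((1:ℝ) / 3) = x ^ 2 := by
  rw [← ENNReal.rpow_natCast x 6, ← ENNReal.rpow_mul, ← ENNReal.rpow_natCast x 2]
  congr 1
  norm_num

theorem holder3 (a b c : ℝ → ENNReal) (ha : Measurable a) (hb : Measurable b)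
    (hc : Measurable c) (A B C : ENNReal) (hA : ∫⁻ y, a y ^ 6 = A ^ 6) (hB : ∫⁻ y, b y ^ 6 = B ^ 6)
    (hC : ∫⁻ y, c y ^ 6 = C ^ 6) :
    ∫⁻ y, (a y * b y * c y) ^ 2 ≤ (A * B * C) ^ 2 := by
  have h := ENNReal.lintegral_prod_norm_pow_le (μ := (volume : Measure ℝ)) (Finset.univ : Finset (Fin 3))
    (f := ![fun y => a y ^ 6, fun y => b y ^ 6, fun y => c y ^ 6])
    (by
      intro i _
      fin_cases i
      · exact (ha.pow_const 6).aemeasurable
      · exact (hb.pow_const 6).aemeasurable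
      · exact (hc.pow_const 6).aemeasurable)
    (p := fun _ => (1:ℝ) / 3) (by simp) (fun _ _ => by norm_num)
  simp only [Fin.prod_univ_three,
    Matrix.cons_val, holder3_pow, hA, hB, hC] at h
  calc ∫⁻ y, (a y * b y * c y) ^ 2 = ∫⁻ y, a y ^ 2 * b y ^ 2 * c y ^ 2 := by
        simp only [mul_pow]
    _ ≤ A ^ 2 * B ^ 2 * C ^ 2 := h
    _ = (A * B * C) ^ 2 := by simp only [mul_pow]

end X_holder3

export X_holder3 (holder3)

end

end Pool.Agent.Helper519.LG
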