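import Pool.Agent.Helper519.P2.Defs

set_option autoImplicit false

open MeasureTheory

namespace Pool.Agent.Helper519.LG

open Helper912.LG

noncomputable section

theorem holder36 (u v : ℝ × ℝ → ℝ) (hu : Measurable u) (hv : Measurable v) :
    eLpNorm (fun q => u q * v q) 3 volume ≤ eLpNorm u 6 volume * eLpNorm v 6 volume := by
  have e6 : ((6:ENNReal))⁻¹ + (6:ENNReal)⁻¹ = (3:ENNReal)⁻¹ := by
    have e : (6:ENNReal) = ENNReal.ofReal 6 := by norm_num
    have e3 : (3:ENNReal) = ENNReal.ofReal 3 := by norm_num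
    rw [e, e3, ← ENNReal.ofReal_inv_of_pos (by norm_num), ← ENNReal.ofReal_inv_of_pos (by norm_num),
      ← ENNReal.ofReal_add (by norm_num) (by norm_num)]
    norm_num
  have h : ENNReal.HolderTriple (6:ENNReal) 6 3 := ⟨e6⟩
  have key : eLpNorm (u • v) 3 (volume : Measure (ℝ × ℝ)) ≤
      eLpNorm u 6 volume * eLpNorm v 6 volume :=
    eLpNorm_smul_le_mul_eLpNorm hv.aestronglyMeasurable hu.aestronglyMeasurable
  have e : (u • v) = fun q => u q * v q := by
    funext q
    simp [Pi.smul_apply', smul_eq_mul]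
  rw [e] at key
  exact key

end

end Pool.Agent.Helper519.LG
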