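import Pool.Agent.Helper519.P2.Defs

set_option autoImplicit false

open MeasureTheory

namespace Pool.Agent.Helper519.LG

open Helper912.LG

noncomputable section

namespace X_kap_facts

-- TARGET: prove this (auxiliary lemmas between the ASSUMED END line and the theorem)

theorem kap_facts (ε N : ℝ) (hε : 0 < ε) : Measurable (kap ε N) ∧ ∀ s, |kap ε N s| ≤ 1 / ε := by
  constructor
  · unfold kap
    apply Measurable.ite
    · have h1 : Measurable (fun s : ℝ => |s|) := continuous_abs.measurable
      exact (measurableSet_lt measurable_const h1).inter (measurableSet_lt h1 measurable_const)
    · exact measurable_const.div measurable_id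
    · exact measurable_const
  · intro s
    unfold kap
    split_ifs with h
    · rw [abs_div, abs_one]
      exact one_div_le_one_div_of_le hε h.1.le
    · rw [abs_zero]
      positivity

end X_kap_facts

export X_kap_facts (kap_facts)

end

end Pool.Agent.Helper519.LG
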