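import Pool.Agent.Helper519.P2.Defs

set_option autoImplicit false

open MeasureTheory

namespace Pool.Agent.Helper519.LG

open Helper912.LG

noncomputable section

namespace X_schur

-- TARGET: prove this (auxiliary lemmas between the ASSUMED END line and the theorem)

theorem schur (m F : ℝ → ENNReal) (hm : Measurable m) (hF : Measurable F) :
    ∫⁻ y, ∫⁻ y', m (y' - y) * (F y * F y') ≤ (∫⁻ t, m t) * ∫⁻ y, F y ^ 2 := by
  have young : ∀ a b : ENNReal, a * b ≤ a ^ 2 / 2 + b ^ 2 / 2 := by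
    intro a b
    have h := ENNReal.young_inequality a b Real.HolderConjugate.two_two
    have h2 : ENNReal.ofReal 2 = 2 := by norm_num
    rw [ENNReal.rpow_two, ENNReal.rpow_two, h2] at h
    exact h
  have hmm : Measurable (fun p : ℝ × ℝ => m (p.2 - p.1)) := hm.comp (by fun_prop)
  have h1 : ∫⁻ y, ∫⁻ y', m (y' - y) * (F y * F y') ≤
      ∫⁻ y, ∫⁻ y', (m (y' - y) * (F y ^ 2 / 2) + m (y' - y) * (F y' ^ 2 / 2)) := by
    refine lintegral_mono fun y => lintegral_mono fun y' => ?_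
    show m (y' - y) * (F y * F y') ≤ m (y' - y) * (F y ^ 2 / 2) + m (y' - y) * (F y' ^ 2 / 2)
    rw [← mul_add]
    exact mul_le_mul_right (young _ _) _
  refine h1.trans ?_
  have h2 : ∀ y, ∫⁻ y', (m (y' - y) * (F y ^ 2 / 2) + m (y' - y) * (F y' ^ 2 / 2)) =
      (∫⁻ t, m t) * (F y ^ 2 / 2) + ∫⁻ y', m (y' - y) * (F y' ^ 2 / 2) := by
    intro y
    have hmy : Measurable (fun y' : ℝ => m (y' - y)) := hm.comp (by fun_prop)
    rw [lintegral_add_left (hmy.mul_const _), lintegral_mul_const _ hmy,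
      lintegral_sub_right_eq_self m y]
  simp_rw [h2]
  rw [lintegral_add_left ((hF.pow_const 2).div_const 2 |>.const_mul _)]
  have h3 : ∫⁻ y, ∫⁻ y', m (y' - y) * (F y' ^ 2 / 2) = ∫⁻ y', (∫⁻ t, m t) * (F y' ^ 2 / 2) := by
    rw [lintegral_lintegral_swap]
    · refine lintegral_congr fun y' => ?_
      have hmy : Measurable (fun y : ℝ => m (y' - y)) := hm.comp (by fun_prop)
      rw [lintegral_mul_const _ hmy, lintegral_sub_left_eq_self m y']
    · exact (hmm.mul (((hF.comp measurable_snd).pow_const 2).div_const 2)).aemeasurable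
  rw [h3, ← two_mul, lintegral_const_mul _ ((hF.pow_const 2).div_const 2)]
  have h4 : ∫⁻ y, F y ^ 2 / 2 = (∫⁻ y, F y ^ 2) / 2 := by
    simp_rw [div_eq_mul_inv]
    rw [lintegral_mul_const _ (hF.pow_const 2)]
  rw [h4]
  refine le_of_eq ?_
  calc 2 * ((∫⁻ t, m t) * ((∫⁻ y, F y ^ 2) / 2))
      = (∫⁻ t, m t) * (2 * ((∫⁻ y, F y ^ 2) / 2)) := by ring
    _ = (∫⁻ t, m t) * ∫⁻ y, F y ^ 2 := by
        rw [ENNReal.mul_div_cancel (by norm_num) (by norm_num)]

end X_schur

export X_schur (schur)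

end

end Pool.Agent.Helper519.LG
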