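import Pool.Agent.Helper519.P2.Defs

set_option autoImplicit false

open MeasureTheory

namespace Pool.Agent.Helper519.LG

open Helper912.LG

noncomputable section

namespace X_slices

-- TARGET: prove this (auxiliary lemmas between the ASSUMED END line and the theorem)


theorem pow6 {α : Type*} [MeasureSpace α] (f : α → ℝ) :
    (eLpNorm f 6 volume) ^ 6 = ∫⁻ x, ‖f x‖ₑ ^ 6 := by
  have h := eLpNorm_nnreal_pow_eq_lintegral (μ := (volume : Measure α)) (f := f) (p := 6) (by norm_num)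
  have e1 : ((6 : NNReal) : ENNReal) = 6 := by norm_num
  have e2 : (((6 : NNReal)) : ℝ) = ((6 : ℕ) : ℝ) := by norm_num
  rw [e1, e2] at h
  simpa only [ENNReal.rpow_natCast] using h

theorem L1 (G : ℝ × ℝ × ℝ → ENNReal) (hG : Measurable G) :
    ∫⁻ y, ∫⁻ q : ℝ × ℝ, G (y, q.1, q.2) = ∫⁻ p, G p := by
  rw [Measure.volume_eq_prod ℝ (ℝ × ℝ), lintegral_prod _ hG.aemeasurable]

theorem L2 (G : ℝ × ℝ × ℝ → ENNReal) (hG : Measurable G) :
    ∫⁻ y, ∫⁻ q : ℝ × ℝ, G (q.1, y, q.2) = ∫⁻ p, G p := by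
  rw [← L1 G hG]
  have h1 : ∀ y : ℝ, ∫⁻ q : ℝ × ℝ, G (q.1, y, q.2) = ∫⁻ a, ∫⁻ b, G (a, y, b) := by
    intro y
    rw [Measure.volume_eq_prod ℝ ℝ, lintegral_prod _ (by fun_prop)]
  have h2 : ∀ a : ℝ, ∫⁻ q : ℝ × ℝ, G (a, q.1, q.2) = ∫⁻ y, ∫⁻ b, G (a, y, b) := by
    intro y
    rw [Measure.volume_eq_prod ℝ ℝ, lintegral_prod _ (by fun_prop)]
  simp_rw [h1, h2]
  refine lintegral_lintegral_swap ?_
  have : Measurable (fun p : ℝ × ℝ => ∫⁻ b, G (p.2, p.1, b)) := by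
    apply Measurable.lintegral_prod_right' (f := fun q : (ℝ × ℝ) × ℝ => G (q.1.2, q.1.1, q.2))
    fun_prop
  exact this.aemeasurable

theorem L3 (G : ℝ × ℝ × ℝ → ENNReal) (hG : Measurable G) :
    ∫⁻ y, ∫⁻ q : ℝ × ℝ, G (q.1, q.2, y) = ∫⁻ p, G p := by
  rw [← L1 G hG]
  rw [lintegral_lintegral_swap (f := fun (y : ℝ) (q : ℝ × ℝ) => G (q.1, q.2, y))
    (Measurable.aemeasurable (by fun_prop))]
  have h2 : ∀ a : ℝ, ∫⁻ q : ℝ × ℝ, G (a, q.1, q.2) = ∫⁻ y, ∫⁻ b, G (a, y, b) := by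
    intro y
    rw [Measure.volume_eq_prod ℝ ℝ, lintegral_prod _ (by fun_prop)]
  simp_rw [h2]
  rw [Measure.volume_eq_prod ℝ ℝ, lintegral_prod]
  have : Measurable (fun p : ℝ × ℝ => ∫⁻ b, G (p.1, p.2, b)) := by
    apply Measurable.lintegral_prod_right' (f := fun q : (ℝ × ℝ) × ℝ => G (q.1.1, q.1.2, q.2))
    fun_prop
  exact this.aemeasurable

theorem meas6 (s : ℝ → ℝ × ℝ → ℝ) (hs : Measurable (fun p : ℝ × (ℝ × ℝ) => s p.1 p.2)) :
    Measurable (fun y => eLpNorm (s y) 6 volume) := by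
  have h : (fun y => eLpNorm (s y) 6 volume) = fun y =>
      (∫⁻ q, ‖s y q‖ₑ ^ (6 : ENNReal).toReal) ^ (1 / (6 : ENNReal).toReal) := by
    funext y
    rw [eLpNorm_eq_lintegral_rpow_enorm_toReal (by norm_num) (by norm_num)]
  rw [h]
  apply Measurable.pow_const
  apply Measurable.lintegral_prod_right'
    (f := fun p : ℝ × (ℝ × ℝ) => ‖s p.1 p.2‖ₑ ^ (6 : ENNReal).toReal)
  exact (hs.enorm).pow_const _

theorem slices (g : ℝ × ℝ × ℝ → ℝ) (hg : Measurable g) :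
    (Measurable (fun y => eLpNorm (sg g y) 6 volume) ∧
      ∫⁻ y, (eLpNorm (sg g y) 6 volume) ^ 6 = (eLpNorm g 6 volume) ^ 6) ∧
    (Measurable (fun y => eLpNorm (sh g y) 6 volume) ∧
      ∫⁻ y, (eLpNorm (sh g y) 6 volume) ^ 6 = (eLpNorm g 6 volume) ^ 6) ∧
    (Measurable (fun y => eLpNorm (sk g y) 6 volume) ∧
      ∫⁻ y, (eLpNorm (sk g y) 6 volume) ^ 6 = (eLpNorm g 6 volume) ^ 6) := by
  have hG : Measurable (fun p => ‖g p‖ₑ ^ 6) := by fun_prop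
  refine ⟨⟨meas6 (sg g) ?_, ?_⟩, ⟨meas6 (sh g) ?_, ?_⟩, ⟨meas6 (sk g) ?_, ?_⟩⟩
  · unfold sg; fun_prop
  · simp_rw [pow6]
    exact L3 (fun p => ‖g p‖ₑ ^ 6) hG
  · unfold sh; fun_prop
  · simp_rw [pow6]
    exact L2 (fun p => ‖g p‖ₑ ^ 6) hG
  · unfold sk; fun_prop
  · simp_rw [pow6]
    exact L1 (fun p => ‖g p‖ₑ ^ 6) hG

end X_slices

export X_slices (slices)

end

end Pool.Agent.Helper519.LG
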