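import Pool.Agent.Helper519.P2.Defs
import Pool.Agent.Helper519.P2.M_Ni_memLp

set_option autoImplicit false

open MeasureTheory

namespace Pool.Agent.Helper519.LG

open Helper912.LG

noncomputable section

namespace X_sq

-- TARGET: prove this (auxiliary lemmas between the ASSUMED END line and the theorem)

/-- integrand of `U` -/
def sqPhi (κ : ℝ → ℝ) (g h k : ℝ × ℝ × ℝ → ℝ) (x : ℝ × ℝ × ℝ) (y : ℝ) : ℝ :=
  g (x.2.1, x.2.2, y) * h (x.2.2, y, x.1) * k (y, x.1, x.2.1) * κ (x.1 + x.2.1 + x.2.2 + y)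

theorem sq_supp {g : ℝ × ℝ × ℝ → ℝ} (hg : HasCompactSupport g) :
    ∃ R : ℝ, ∀ a b c : ℝ, g (a, b, c) ≠ 0 → |a| ≤ R ∧ |b| ≤ R ∧ |c| ≤ R := by
  obtain ⟨R, hR⟩ := hg.isCompact.isBounded.subset_closedBall 0
  refine ⟨R, fun a b c h => ?_⟩
  have h1 : (a, b, c) ∈ Metric.closedBall (0 : ℝ × ℝ × ℝ) R :=
    hR (subset_tsupport g (Function.mem_support.mpr h))
  rw [mem_closedBall_zero_iff] at h1
  have h2 := norm_fst_le (a, b, c)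
  have h3 := norm_snd_le (a, b, c)
  have h4 := norm_fst_le (b, c)
  have h5 := norm_snd_le (b, c)
  simp only [Real.norm_eq_abs] at h2 h4 h5
  simp only at h3
  exact ⟨h2.trans h1, (h4.trans h3).trans h1, (h5.trans h3).trans h1⟩

theorem sq_bdd {g : ℝ × ℝ × ℝ → ℝ} (hg : Ni g) : ∃ M : ℝ, 0 ≤ M ∧ ∀ p, |g p| ≤ M := by
  obtain ⟨M, hM⟩ := hg.bdd
  exact ⟨M, (abs_nonneg _).trans (hM 0), hM⟩

theorem sq_Ni (κ : ℝ → ℝ) (hκ : Measurable κ) (B : ℝ) (hB : ∀ s, |κ s| ≤ B)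
    (g h k : ℝ × ℝ × ℝ → ℝ) (hg : Ni g) (hh : Ni h) (hk : Ni k) :
    Ni (fun z : (ℝ × ℝ × ℝ) × (ℝ × ℝ) => sqPhi κ g h k z.1 z.2.1 * sqPhi κ g h k z.1 z.2.2) := by
  refine ⟨?_, ?_, ?_⟩
  · have hgm := hg.meas
    have hhm := hh.meas
    have hkm := hk.meas
    unfold sqPhi
    fun_prop
  · obtain ⟨R1, hR1⟩ := sq_supp hg.supp
    obtain ⟨R2, hR2⟩ := sq_supp hh.supp
    apply HasCompactSupport.intro (isCompact_closedBall (0 : (ℝ × ℝ × ℝ) × (ℝ × ℝ)) (max R1 R2))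
    rintro ⟨⟨x1, x2, x3⟩, y, y'⟩ hz
    by_contra hne
    apply hz
    simp only [sqPhi, ne_eq, mul_eq_zero, not_or] at hne
    obtain ⟨⟨⟨⟨g1, h1⟩, -⟩, -⟩, ⟨⟨g2, -⟩, -⟩, -⟩ := hne
    obtain ⟨a1, a2, a3⟩ := hR1 _ _ _ g1
    obtain ⟨-, -, b3⟩ := hR1 _ _ _ g2
    obtain ⟨-, -, c3⟩ := hR2 _ _ _ h1
    have m1 := le_max_left R1 R2
    have m2 := le_max_right R1 R2
    rw [mem_closedBall_zero_iff]
    simp only [Prod.norm_def, Real.norm_eq_abs, sup_le_iff]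
    exact ⟨⟨c3.trans m2, a1.trans m1, a2.trans m1⟩, a3.trans m1, b3.trans m1⟩
  · obtain ⟨M1, hM1, hg'⟩ := sq_bdd hg
    obtain ⟨M2, hM2, hh'⟩ := sq_bdd hh
    obtain ⟨M3, hM3, hk'⟩ := sq_bdd hk
    have hB0 : 0 ≤ B := (abs_nonneg _).trans (hB 0)
    have hP : ∀ x y, |sqPhi κ g h k x y| ≤ M1 * M2 * M3 * B := by
      intro x y
      unfold sqPhi
      rw [abs_mul, abs_mul, abs_mul]
      gcongr
      · exact hg' _
      · exact hh' _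
      · exact hk' _
      · exact hB _
    refine ⟨M1 * M2 * M3 * B * (M1 * M2 * M3 * B), fun z => ?_⟩
    rw [abs_mul]
    exact mul_le_mul (hP _ _) (hP _ _) (abs_nonneg _) (by positivity)

theorem sq (κ : ℝ → ℝ) (hκ : Measurable κ) (B : ℝ) (hB : ∀ s, |κ s| ≤ B)
    (g h k : ℝ × ℝ × ℝ → ℝ) (hg : Ni g) (hh : Ni h) (hk : Ni k) :
    ∫ x : ℝ × ℝ × ℝ, U κ g h k x ^ 2 = ∫ y : ℝ, ∫ y' : ℝ,
      T3 (fun s => κ (s + y) * κ (s + y')) (fun q => sk k y q * sk k y' q)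
        (fun q => sg g y q * sg g y' q) (fun q => sh h y q * sh h y' q) := by
  have hW := Ni_memLp (volume : Measure ((ℝ × ℝ × ℝ) × (ℝ × ℝ)))
    _ (sq_Ni κ hκ B hB g h k hg hh hk) 1
  rw [memLp_one_iff_integrable] at hW
  have h1 : ∀ x : ℝ × ℝ × ℝ, U κ g h k x ^ 2 =
      ∫ w : ℝ × ℝ, sqPhi κ g h k x w.1 * sqPhi κ g h k x w.2 := by
    intro x
    have := integral_prod_mul (μ := (volume : Measure ℝ)) (ν := (volume : Measure ℝ))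
      (fun y => sqPhi κ g h k x y) (fun y => sqPhi κ g h k x y)
    rw [Measure.volume_eq_prod, this, pow_two]
    rfl
  have h2 : ∫ x : ℝ × ℝ × ℝ, ∫ w : ℝ × ℝ, sqPhi κ g h k x w.1 * sqPhi κ g h k x w.2 =
      ∫ w : ℝ × ℝ, ∫ x : ℝ × ℝ × ℝ, sqPhi κ g h k x w.1 * sqPhi κ g h k x w.2 :=
    integral_integral_swap hW
  have h3 : ∫ w : ℝ × ℝ, ∫ x : ℝ × ℝ × ℝ, sqPhi κ g h k x w.1 * sqPhi κ g h k x w.2 =
      ∫ y : ℝ, ∫ y' : ℝ, ∫ x : ℝ × ℝ × ℝ, sqPhi κ g h k x y * sqPhi κ g h k x y' :=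
    integral_prod _ hW.integral_prod_right
  simp only [h1]
  rw [h2, h3]
  congr 1
  funext y
  congr 1
  funext y'
  unfold T3 Helper912.Z.F3 sg sh sk sqPhi
  congr 1
  funext p
  ring

end X_sq

export X_sq (sq)

end

end Pool.Agent.Helper519.LG
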