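import Pool.Agent.Helper519.P2.Defs
import Pool.Agent.Helper519.P2.M_Ni_memLp
import Pool.Agent.Helper519.P2.M_Ni_slice
import Pool.Agent.Helper519.P2.M_kap_facts
import Pool.Agent.Helper519.P2.M_U_Ni
import Pool.Agent.Helper519.P2.M_sq
import Pool.Agent.Helper519.P2.M_holder36
import Pool.Agent.Helper519.P2.M_schur
import Pool.Agent.Helper519.P2.M_holder3
import Pool.Agent.Helper519.P2.M_slices

set_option autoImplicit false

open MeasureTheory

namespace Pool.Agent.Helper519.LG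

open Helper912.LG

noncomputable section

namespace X_U2

-- TARGET: prove this (auxiliary lemmas between the ASSUMED END line and the theorem)

theorem U2 (ε N : ℝ) (hε : 0 < ε) (M : ℝ → ℝ) (hM : Measurable M) (hM0 : ∀ t, 0 ≤ M t)
    (hMi : Integrable M)
    (h1 : ∀ (f g h : ℝ × ℝ → ℝ), Ni f → Ni g → Ni h → ∀ a t : ℝ,
      |T3 (fun s => kap ε N (s + a) * kap ε N (s + a + t)) f g h| ≤ M t * nm 3 f * nm 3 g * nm 3 h)
    (g h k : ℝ × ℝ × ℝ → ℝ) (hg : Ni g) (hh : Ni h) (hk : Ni k) :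
    ∫ x : ℝ × ℝ × ℝ, U (kap ε N) g h k x ^ 2 ≤ (∫ t, M t) * (nm 6 g * nm 6 h * nm 6 k) ^ 2 := by
  obtain ⟨hκm, hκb⟩ := kap_facts ε N hε
  rw [sq (kap ε N) hκm (1 / ε) hκb g h k hg hh hk]
  obtain ⟨hgm, hgi⟩ := (slices g hg.meas).1
  obtain ⟨hhm, hhi⟩ := (slices h hh.meas).2.1
  obtain ⟨hkm, hki⟩ := (slices k hk.meas).2.2
  have hfin : ∀ g : ℝ × ℝ × ℝ → ℝ, Ni g → ENNReal.ofReal (nm 6 g) = eLpNorm g 6 volume := by
    intro g hg
    unfold nm
    exact ENNReal.ofReal_toReal (Ni_memLp volume g hg 6).2.ne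
  set T : ℝ → ℝ → ℝ := fun y y' =>
    T3 (fun s => kap ε N (s + y) * kap ε N (s + y')) (fun q => sk k y q * sk k y' q)
        (fun q => sg g y q * sg g y' q) (fun q => sh h y q * sh h y' q) with hT
  set F : ℝ → ENNReal := fun y => eLpNorm (sk k y) 6 volume * eLpNorm (sg g y) 6 volume *
    eLpNorm (sh h y) 6 volume with hF
  have hFm : Measurable F := (hkm.mul hgm).mul hhm
  have hslice : ∀ u v : ℝ × ℝ → ℝ, Measurable u → Measurable v →
      ENNReal.ofReal (nm 3 (fun q => u q * v q)) ≤ eLpNorm u 6 volume * eLpNorm v 6 volume := by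
    intro u v hu hv
    unfold nm
    exact ENNReal.ofReal_toReal_le.trans (holder36 u v hu hv)
  have hpt : ∀ y y' : ℝ, ‖T y y'‖ₑ ≤ ENNReal.ofReal (M (y' - y)) * (F y * F y') := by
    intro y y'
    have s1 := Ni_slice g hg y y'
    have s2 := Ni_slice h hh y y'
    have s3 := Ni_slice k hk y y'
    have s1' := Ni_slice g hg y' y
    have s2' := Ni_slice h hh y' y
    have s3' := Ni_slice k hk y' y
    have hb := h1 (fun q => sk k y q * sk k y' q) (fun q => sg g y q * sg g y' q)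
      (fun q => sh h y q * sh h y' q) s3.2.2.2 s1.2.1 s2.2.2.1 y (y' - y)
    have e1 : (fun s => kap ε N (s + y) * kap ε N (s + y + (y' - y))) =
        fun s => kap ε N (s + y) * kap ε N (s + y') := by
      ext s
      congr 2
      ring
    rw [e1] at hb
    rw [Real.enorm_eq_ofReal_abs]
    refine (ENNReal.ofReal_le_ofReal hb).trans ?_
    have n3 : ∀ f : ℝ × ℝ → ℝ, 0 ≤ nm 3 f := fun f => ENNReal.toReal_nonneg
    rw [ENNReal.ofReal_mul (mul_nonneg (mul_nonneg (hM0 _) (n3 _)) (n3 _)),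
      ENNReal.ofReal_mul (mul_nonneg (hM0 _) (n3 _)), ENNReal.ofReal_mul (hM0 _)]
    calc ENNReal.ofReal (M (y' - y)) * ENNReal.ofReal (nm 3 (fun q => sk k y q * sk k y' q)) *
          ENNReal.ofReal (nm 3 (fun q => sg g y q * sg g y' q)) *
          ENNReal.ofReal (nm 3 (fun q => sh h y q * sh h y' q))
        ≤ ENNReal.ofReal (M (y' - y)) *
          (eLpNorm (sk k y) 6 volume * eLpNorm (sk k y') 6 volume) *
          (eLpNorm (sg g y) 6 volume * eLpNorm (sg g y') 6 volume) *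
          (eLpNorm (sh h y) 6 volume * eLpNorm (sh h y') 6 volume) := by
          gcongr
          · exact hslice _ _ s3.1.2.2.meas s3'.1.2.2.meas
          · exact hslice _ _ s1.1.1.meas s1'.1.1.meas
          · exact hslice _ _ s2.1.2.1.meas s2'.1.2.1.meas
      _ = ENNReal.ofReal (M (y' - y)) * (F y * F y') := by
          simp only [hF]
          ring
  have hmain : ENNReal.ofReal (∫ y : ℝ, ∫ y' : ℝ, T y y') ≤
      ENNReal.ofReal ((∫ t, M t) * (nm 6 g * nm 6 h * nm 6 k) ^ 2) := by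
    calc ENNReal.ofReal (∫ y : ℝ, ∫ y' : ℝ, T y y')
        ≤ ‖∫ y : ℝ, ∫ y' : ℝ, T y y'‖ₑ := by
          rw [Real.enorm_eq_ofReal_abs]
          exact ENNReal.ofReal_le_ofReal (le_abs_self _)
      _ ≤ ∫⁻ y : ℝ, ‖∫ y' : ℝ, T y y'‖ₑ := enorm_integral_le_lintegral_enorm _
      _ ≤ ∫⁻ y : ℝ, ∫⁻ y' : ℝ, ‖T y y'‖ₑ :=
          lintegral_mono fun y => enorm_integral_le_lintegral_enorm _
      _ ≤ ∫⁻ y : ℝ, ∫⁻ y' : ℝ, ENNReal.ofReal (M (y' - y)) * (F y * F y') :=
          lintegral_mono fun y => lintegral_mono fun y' => hpt y y'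
      _ ≤ (∫⁻ t, ENNReal.ofReal (M t)) * ∫⁻ y, F y ^ 2 :=
          schur (fun t => ENNReal.ofReal (M t)) F hM.ennreal_ofReal hFm
      _ ≤ (∫⁻ t, ENNReal.ofReal (M t)) * (eLpNorm k 6 volume * eLpNorm g 6 volume *
            eLpNorm h 6 volume) ^ 2 := by
          gcongr
          exact holder3 _ _ _ hkm hgm hhm _ _ _ hki hgi hhi
      _ = ENNReal.ofReal ((∫ t, M t) * (nm 6 g * nm 6 h * nm 6 k) ^ 2) := by
          have n6 : ∀ f : ℝ × ℝ × ℝ → ℝ, 0 ≤ nm 6 f := fun f => ENNReal.toReal_nonneg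
          rw [ENNReal.ofReal_mul (integral_nonneg hM0),
            ofReal_integral_eq_lintegral_ofReal hMi (Filter.Eventually.of_forall hM0),
            ENNReal.ofReal_pow (mul_nonneg (mul_nonneg (n6 _) (n6 _)) (n6 _)),
            ENNReal.ofReal_mul (mul_nonneg (n6 _) (n6 _)), ENNReal.ofReal_mul (n6 _),
            hfin g hg, hfin h hh, hfin k hk]
          ring
  refine (ENNReal.ofReal_le_ofReal_iff ?_).1 hmain
  have : 0 ≤ ∫ t, M t := integral_nonneg hM0
  positivity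

end X_U2

export X_U2 (U2)

end

end Pool.Agent.Helper519.LG
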