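import Pool.Agent.Helper519.P2.Defs
import Pool.Agent.Helper519.P2.M_Ni_memLp

set_option autoImplicit false

open MeasureTheory

namespace Pool.Agent.Helper519.LG

open Helper912.LG

noncomputable section

namespace X_cs

-- TARGET: prove this (auxiliary lemmas between the ASSUMED END line and the theorem)

theorem cs (f u : ℝ × ℝ × ℝ → ℝ) (hf : Ni f) (hu : Ni u) :
    |∫ x : ℝ × ℝ × ℝ, f x * u x| ≤ nm 2 f * Real.sqrt (∫ x : ℝ × ℝ × ℝ, u x ^ 2) := by
  have hfm : MemLp f 2 (volume : Measure (ℝ × ℝ × ℝ)) := Ni_memLp volume f hf 2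
  have hum : MemLp u 2 (volume : Measure (ℝ × ℝ × ℝ)) := Ni_memLp volume u hu 2
  have hnm : nm 2 f = (∫ x : ℝ × ℝ × ℝ, ‖f x‖ ^ (2 : ℝ)) ^ (1 / (2 : ℝ)) := by
    unfold nm
    rw [MemLp.eLpNorm_eq_integral_rpow_norm (by norm_num) (by norm_num) hfm]
    rw [ENNReal.toReal_ofReal (by positivity)]
    norm_num
  have hsq : Real.sqrt (∫ x : ℝ × ℝ × ℝ, u x ^ 2) =
      (∫ x : ℝ × ℝ × ℝ, ‖u x‖ ^ (2 : ℝ)) ^ (1 / (2 : ℝ)) := by
    rw [Real.sqrt_eq_rpow]
    congr 1
    refine integral_congr_ae (Filter.Eventually.of_forall fun x => ?_)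
    simp only [Real.rpow_two, Real.norm_eq_abs, sq_abs]
  have hcs := integral_mul_norm_le_Lp_mul_Lq (μ := (volume : Measure (ℝ × ℝ × ℝ)))
    (p := 2) (q := 2) (f := f) (g := u) Real.HolderConjugate.two_two
    (by simpa using hfm) (by simpa using hum)
  rw [hnm, hsq]
  refine le_trans ?_ hcs
  refine (abs_integral_le_integral_abs).trans (le_of_eq ?_)
  refine integral_congr_ae (Filter.Eventually.of_forall fun x => ?_)
  simp only [abs_mul, Real.norm_eq_abs]

end X_cs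

export X_cs (cs)

end

end Pool.Agent.Helper519.LG
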