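import Pool.Agent.Helper519.P2.Defs
import Pool.Agent.Helper519.P2.M_kap_facts
import Pool.Agent.Helper519.P2.M_T4_eq
import Pool.Agent.Helper519.P2.M_U_Ni
import Pool.Agent.Helper519.P2.M_cs
import Pool.Agent.Helper519.P2.M_U2

set_option autoImplicit false

open MeasureTheory

namespace Pool.Agent.Helper519.LG

open Helper912.LG

noncomputable section

namespace X_P2_of_P1

-- TARGET: prove this (auxiliary lemmas between the ASSUMED END line and the theorem)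

theorem P2_of_P1 (h : P1) : P2 := by
  obtain ⟨C1, hC1, H⟩ := h
  refine ⟨Real.sqrt C1, Real.sqrt_nonneg _, ?_⟩
  intro f g h k hf hg hh hk ε N hε hεN
  obtain ⟨M, hM, hM0, hMi, hMint, h1⟩ := H ε N hε hεN
  obtain ⟨hκ, hB⟩ := kap_facts ε N hε
  have hU := U_Ni (kap ε N) hκ (1 / ε) hB g h k hg hh hk
  rw [T4_eq (kap ε N) hκ (1 / ε) hB f g h k hf hg hh hk]
  refine (cs f _ hf hU).trans ?_
  have h2 := U2 ε N hε M hM hM0 hMi h1 g h k hg hh hk
  have hn : 0 ≤ nm 6 g * nm 6 h * nm 6 k := by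
    unfold nm; positivity
  have hf0 : 0 ≤ nm 2 f := by unfold nm; positivity
  have h3 : Real.sqrt (∫ x : ℝ × ℝ × ℝ, U (kap ε N) g h k x ^ 2)
      ≤ Real.sqrt C1 * Real.sqrt (1 + Real.log (N / ε)) * (nm 6 g * nm 6 h * nm 6 k) := by
    calc Real.sqrt (∫ x : ℝ × ℝ × ℝ, U (kap ε N) g h k x ^ 2)
        ≤ Real.sqrt ((C1 * (1 + Real.log (N / ε))) * (nm 6 g * nm 6 h * nm 6 k) ^ 2) := by
          apply Real.sqrt_le_sqrt
          exact h2.trans (mul_le_mul_of_nonneg_right hMint (sq_nonneg _))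
      _ = Real.sqrt C1 * Real.sqrt (1 + Real.log (N / ε)) * (nm 6 g * nm 6 h * nm 6 k) := by
          rw [Real.sqrt_mul' _ (sq_nonneg _), Real.sqrt_sq hn, Real.sqrt_mul hC1]
  calc nm 2 f * Real.sqrt (∫ x : ℝ × ℝ × ℝ, U (kap ε N) g h k x ^ 2)
      ≤ nm 2 f * (Real.sqrt C1 * Real.sqrt (1 + Real.log (N / ε)) * (nm 6 g * nm 6 h * nm 6 k)) :=
        mul_le_mul_of_nonneg_left h3 hf0
    _ = Real.sqrt C1 * Real.sqrt (1 + Real.log (N / ε)) * nm 2 f * nm 6 g * nm 6 h * nm 6 k := by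
        ring

end X_P2_of_P1

export X_P2_of_P1 (P2_of_P1)

end

end Pool.Agent.Helper519.LG
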